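import Pool.Agent.Helper78.LK.Goals

/-!
# LK-IPL: planar isotopies do not change runs
-/

set_option autoImplicit false

namespace Pool.Agent.Helper9.LK

open Pool.Agent.Helper50.KP Pool.Agent.Helper78.LK

theorem pc_len {D : Dat} {K : Kind} {x : ℕ} {S S' : List Lb} {p : ℤ} (h : Pc D K x S S' p) :
    S.length = K.i ∧ S'.length = K.o := by
  cases h <;> exact ⟨rfl, rfl⟩

theorem run_nil {D : Dat} {A B : List Lb} {q : ℤ} : Run D [] A B q ↔ A = B ∧ q = 0 := by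
  constructor
  · intro h
    cases h
    exact ⟨rfl, rfl⟩
  · rintro ⟨rfl, rfl⟩
    exact Run.nil _

theorem run_cons {D : Dat} {K : Kind} {k x : ℕ} {W : DW} {A L : List Lb} {q : ℤ} :
    Run D ((K, k, x) :: W) A L q ↔ ∃ P S Q S' p r, A = P ++ S ++ Q ∧ P.length = k ∧
      Pc D K x S S' p ∧ Run D W (P ++ S' ++ Q) L r ∧ q = p + r := by
  constructor
  · intro h
    cases h with
    | cons hk hp hr => exact ⟨_, _, _, _, _, _, rfl, hk, hp, hr, rfl⟩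
  · rintro ⟨P, S, Q, S', p, r, rfl, hk, hp, hr, rfl⟩
    exact Run.cons hk hp hr

theorem run_at {D : Dat} {K : Kind} {k x : ℕ} {W : DW} {P S Q L : List Lb} {q : ℤ}
    (hP : P.length = k) (hS : S.length = K.i) :
    Run D ((K, k, x) :: W) (P ++ S ++ Q) L q ↔ ∃ S' p r, Pc D K x S S' p ∧
      Run D W (P ++ S' ++ Q) L r ∧ q = p + r := by
  rw [run_cons]
  constructor
  · rintro ⟨P1, S1, Q1, S', p, r, hA, hk, hp, hr, rfl⟩
    rw [List.append_assoc, List.append_assoc] at hA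
    obtain ⟨rfl, h2⟩ := List.append_inj hA (hP.trans hk.symm)
    obtain ⟨rfl, rfl⟩ := List.append_inj h2 (hS.trans (pc_len hp).1.symm)
    exact ⟨S', p, r, hp, hr, rfl⟩
  · rintro ⟨S', p, r, hp, hr, rfl⟩
    exact ⟨P, S, Q, S', p, r, rfl, hP, hp, hr, rfl⟩

theorem pc_cup {D : Dat} {x : ℕ} {S S' : List Lb} {p : ℤ} :
    Pc D .cup x S S' p ↔ S = [] ∧ p = 0 ∧ ∃ l d, S' = [(l, d), (l, !d)] := by
  constructor
  · intro h
    cases h
    exact ⟨rfl, rfl, _, _, rfl⟩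
  · rintro ⟨rfl, rfl, l, d, rfl⟩
    exact Pc.cup _ _ _

theorem pc_cap {D : Dat} {x : ℕ} {S S' : List Lb} {p : ℤ} :
    Pc D .cap x S S' p ↔ S' = [] ∧ p = 0 ∧ ∃ l d, S = [(l, d), (l, !d)] := by
  constructor
  · intro h
    cases h
    exact ⟨rfl, rfl, _, _, rfl⟩
  · rintro ⟨rfl, rfl, l, d, rfl⟩
    exact Pc.cap _ _ _

theorem pc_X {D : Dat} {s : Bool} {x : ℕ} {S S' : List Lb} {p : ℤ} :
    Pc D (.X s) x S S' p ↔
      (D.fr x = true ∧ ∃ a b, S = [a, b] ∧ S' = [b, a] ∧ p = ch D s a b) ∨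
      (D.fr x = false ∧ p = 0 ∧ ∃ d e, S = [(D.l x s d, d), (D.l x (!s) e, e)] ∧
        S' = [(D.l x (!s) (!e), e), (D.l x s (!d), d)]) := by
  constructor
  · intro h
    cases h with
    | free _ _ _ _ hf => exact Or.inl ⟨hf, _, _, rfl, rfl, rfl⟩
    | fix _ _ _ _ hf => exact Or.inr ⟨hf, rfl, _, _, rfl, rfl⟩
  · rintro (⟨h, a, b, rfl, rfl, rfl⟩ | ⟨h, rfl, d, e, rfl, rfl⟩)
    · exact Pc.free _ _ _ _ h
    · exact Pc.fix _ _ _ _ h

/-- cup -/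
theorem run_cup {D : Dat} {k x : ℕ} {W : DW} {P Q L : List Lb} {q : ℤ} (hP : P.length = k) :
    Run D ((.cup, k, x) :: W) (P ++ Q) L q ↔
      ∃ l d, Run D W (P ++ (l, d) :: (l, !d) :: Q) L q := by
  have h := run_at (D := D) (K := .cup) (x := x) (W := W) (S := []) (Q := Q) (L := L) (q := q)
    hP rfl
  rw [List.append_nil] at h
  rw [h]
  constructor
  · rintro ⟨S', p, r, hp, hr, rfl⟩
    obtain ⟨-, rfl, l, d, rfl⟩ := pc_cup.1 hp
    refine ⟨l, d, ?_⟩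
    rw [zero_add]
    simpa using hr
  · rintro ⟨l, d, hr⟩
    refine ⟨_, 0, q, Pc.cup _ l d, ?_, by ring⟩
    simpa using hr

/-- cap -/
theorem run_cap {D : Dat} {k x : ℕ} {W : DW} {P Q L : List Lb} {a b : Lb} {q : ℤ}
    (hP : P.length = k) :
    Run D ((.cap, k, x) :: W) (P ++ a :: b :: Q) L q ↔ b = (a.1, !a.2) ∧
      Run D W (P ++ Q) L q := by
  have h := run_at (D := D) (K := .cap) (x := x) (W := W) (S := [a, b]) (Q := Q) (L := L)
    (q := q) hP rfl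
  have e : P ++ [a, b] ++ Q = P ++ a :: b :: Q := by simp
  rw [e] at h
  rw [h]
  constructor
  · rintro ⟨S', p, r, hp, hr, rfl⟩
    obtain ⟨rfl, rfl, l, d, hl⟩ := pc_cap.1 hp
    simp only [List.cons.injEq, and_true] at hl
    obtain ⟨rfl, rfl⟩ := hl
    refine ⟨rfl, ?_⟩
    rw [zero_add]
    simpa using hr
  · rintro ⟨rfl, hr⟩
    refine ⟨[], 0, q, ?_, by simpa using hr, by ring⟩
    exact Pc.cap _ a.1 a.2

/-- crossing -/
theorem run_X {D : Dat} {k x : ℕ} {s : Bool} {W : DW} {P Q L : List Lb} {a b : Lb} {q : ℤ}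
    (hP : P.length = k) :
    Run D ((.X s, k, x) :: W) (P ++ a :: b :: Q) L q ↔
      (D.fr x = true ∧ ∃ r, Run D W (P ++ b :: a :: Q) L r ∧ q = ch D s a b + r) ∨
      (D.fr x = false ∧ a.1 = D.l x s a.2 ∧ b.1 = D.l x (!s) b.2 ∧
        Run D W (P ++ (D.l x (!s) (!b.2), b.2) :: (D.l x s (!a.2), a.2) :: Q) L q) := by
  have h := run_at (D := D) (K := .X s) (x := x) (W := W) (S := [a, b]) (Q := Q) (L := L)
    (q := q) hP rfl
  have e : P ++ [a, b] ++ Q = P ++ a :: b :: Q := by simp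
  rw [e] at h
  rw [h]
  constructor
  · rintro ⟨S', p, r, hp, hr, rfl⟩
    rcases pc_X.1 hp with ⟨hf, a', b', hl, rfl, rfl⟩ | ⟨hf, rfl, d, e', hl, rfl⟩
    · simp only [List.cons.injEq, and_true] at hl
      obtain ⟨rfl, rfl⟩ := hl
      exact Or.inl ⟨hf, r, by simpa using hr, rfl⟩
    · simp only [List.cons.injEq, and_true] at hl
      obtain ⟨rfl, rfl⟩ := hl
      refine Or.inr ⟨hf, rfl, rfl, ?_⟩
      rw [zero_add]
      simpa using hr
  · rintro (⟨hf, r, hr, rfl⟩ | ⟨hf, ha, hb, hr⟩)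
    · exact ⟨[b, a], _, r, Pc.free _ _ _ _ hf, by simpa using hr, rfl⟩
    · refine ⟨[(D.l x (!s) (!b.2), b.2), (D.l x s (!a.2), a.2)], 0, q, ?_, by simpa using hr,
        by ring⟩
      have h1 := Pc.fix (D := D) s x a.2 b.2 hf
      rw [← ha, ← hb] at h1
      exact h1

theorem split0 {A : List Lb} {i : ℕ} (h : i ≤ A.length) : ∃ P Q, A = P ++ Q ∧ P.length = i :=
  ⟨A.take i, A.drop i, (List.take_append_drop i A).symm, by simp [h]⟩

theorem split1 {A : List Lb} {i : ℕ} (h : i + 1 ≤ A.length) :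
    ∃ P a Q, A = P ++ a :: Q ∧ P.length = i := by
  obtain ⟨P, Q, rfl, hP⟩ := split0 (by omega : i ≤ A.length)
  rw [List.length_append, hP] at h
  cases Q with
  | nil => simp at h
  | cons a Q => exact ⟨P, a, Q, rfl, hP⟩

theorem split3 {A : List Lb} {i : ℕ} (h : i + 3 ≤ A.length) :
    ∃ P a b c Q, A = P ++ a :: b :: c :: Q ∧ P.length = i := by
  obtain ⟨P, Q, rfl, hP⟩ := split0 (by omega : i ≤ A.length)
  rw [List.length_append, hP] at h
  match Q, h with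
  | [], h => simp at h
  | [_], h => simp at h
  | [_, _], h => simp at h
  | a :: b :: c :: Q, _ => exact ⟨P, a, b, c, Q, rfl, hP⟩

theorem mv {P : List Lb} {a : Lb} {Q : List Lb} : P ++ a :: Q = (P ++ [a]) ++ Q := by simp

theorem len1 {P : List Lb} {a : Lb} {i : ℕ} (hP : P.length = i) : (P ++ [a]).length = i + 1 := by
  simp [hP]

theorem zig {D : Dat} {i x y : ℕ} {A B : List Lb} {q : ℤ} (h : i + 1 ≤ A.length) :
    Run D [(.cup, i, x), (.cap, i + 1, y)] A B q ↔ Run D [] A B q := by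
  obtain ⟨P, a, Q, rfl, hP⟩ := split1 h
  rw [run_cup hP, run_nil]
  constructor
  · rintro ⟨l, d, h1⟩
    rw [mv, run_cap (len1 hP), run_nil] at h1
    obtain ⟨rfl, h2, rfl⟩ := h1
    refine ⟨?_, rfl⟩
    rw [← h2]
    simp
  · rintro ⟨h1, rfl⟩
    refine ⟨a.1, a.2, ?_⟩
    rw [mv, run_cap (len1 hP), run_nil]
    refine ⟨by simp, ?_, rfl⟩
    rw [← h1]
    simp

theorem zag {D : Dat} {i x y : ℕ} {A B : List Lb} {q : ℤ} (h : i + 1 ≤ A.length) :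
    Run D [(.cup, i + 1, x), (.cap, i, y)] A B q ↔ Run D [] A B q := by
  obtain ⟨P, a, Q, rfl, hP⟩ := split1 h
  rw [mv, run_cup (len1 hP), run_nil]
  constructor
  · rintro ⟨l, d, h1⟩
    rw [← mv, run_cap hP, run_nil] at h1
    obtain ⟨h0, h2, rfl⟩ := h1
    refine ⟨?_, rfl⟩
    rw [← h2, ← mv]
    simp only [Prod.mk.injEq] at h0
    obtain ⟨rfl, rfl⟩ := h0
    simp
  · rintro ⟨h1, rfl⟩
    refine ⟨a.1, !a.2, ?_⟩
    rw [← mv, run_cap hP, run_nil]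
    refine ⟨rfl, ?_, rfl⟩
    rw [← h1, ← mv]
    simp

theorem pcap {D : Dat} {i x y : ℕ} {s : Bool} {A B : List Lb} {q : ℤ} (h : i + 3 ≤ A.length) :
    Run D [(.X s, i, x), (.cap, i + 1, y)] A B q ↔
      Run D [(.X (!s), i + 1, x), (.cap, i, y)] A B q := by
  obtain ⟨P, a, b, c, Q, rfl, hP⟩ := split3 h
  rw [run_X hP]
  have e : P ++ a :: b :: c :: Q = (P ++ [a]) ++ b :: c :: Q := mv
  rw [e, run_X (len1 hP)]
  simp only [Bool.not_not]
  have e1 : ∀ r, Run D [(.cap, i + 1, y)] (P ++ b :: a :: c :: Q) B r ↔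
      c = (a.1, !a.2) ∧ P ++ b :: Q = B ∧ r = 0 := by
    intro r
    rw [mv, run_cap (len1 hP), run_nil, ← mv]
  have e2 : ∀ r, Run D [(.cap, i, y)] ((P ++ [a]) ++ c :: b :: Q) B r ↔
      c = (a.1, !a.2) ∧ P ++ b :: Q = B ∧ r = 0 := by
    intro r
    rw [← mv, run_cap hP, run_nil]
  have e3 : Run D [(.cap, i + 1, y)] (P ++ (D.l x (!s) (!b.2), b.2) :: (D.l x s (!a.2), a.2) ::
      c :: Q) B q ↔ c = (D.l x s (!a.2), !a.2) ∧
        P ++ (D.l x (!s) (!b.2), b.2) :: Q = B ∧ q = 0 := by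
    rw [mv, run_cap (len1 hP), run_nil, ← mv]
  have e4 : Run D [(.cap, i, y)] ((P ++ [a]) ++ (D.l x s (!c.2), c.2) ::
      (D.l x (!s) (!b.2), b.2) :: Q) B q ↔ (D.l x s (!c.2), c.2) = (a.1, !a.2) ∧
        P ++ (D.l x (!s) (!b.2), b.2) :: Q = B ∧ q = 0 := by
    rw [← mv, run_cap hP, run_nil]
  simp only [e1, e2, e3, e4]
  have hch : c = (a.1, !a.2) → ch D s a b = ch D (!s) b c := by
    rintro rfl
    unfold ch
    cases s <;> cases a.2 <;> cases b.2 <;> simp [sg]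
  constructor
  · rintro (⟨hf, r, ⟨hc, hB, rfl⟩, rfl⟩ | ⟨hf, ha, hb, hc, hB, rfl⟩)
    · exact Or.inl ⟨hf, 0, ⟨hc, hB, rfl⟩, by rw [hch hc]⟩
    · refine Or.inr ⟨hf, hb, ?_, ?_, hB, rfl⟩
      · rw [hc]
      · rw [hc]
        simp only [Bool.not_not]
        rw [← ha]
  · rintro (⟨hf, r, ⟨hc, hB, rfl⟩, rfl⟩ | ⟨hf, hb, hc, he, hB, rfl⟩)
    · exact Or.inl ⟨hf, 0, ⟨hc, hB, rfl⟩, by rw [hch hc]⟩
    · simp only [Prod.mk.injEq] at he
      obtain ⟨he1, he2⟩ := he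
      refine Or.inr ⟨hf, ?_, hb, ?_, hB, rfl⟩
      · rw [← he1, he2, Bool.not_not]
      · rw [← he2]
        exact Prod.ext hc rfl

theorem pcup {D : Dat} {i x y : ℕ} {s : Bool} {A B : List Lb} {q : ℤ} (h : i + 1 ≤ A.length) :
    Run D [(.cup, i + 1, x), (.X s, i, y)] A B q ↔
      Run D [(.cup, i, x), (.X (!s), i + 1, y)] A B q := by
  obtain ⟨P, c, Q, rfl, hP⟩ := split1 h
  rw [run_cup hP]
  have e : P ++ c :: Q = (P ++ [c]) ++ Q := mv
  rw [e, run_cup (len1 hP)]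
  have e1 : ∀ (l : ℕ) (d : Bool), Run D [(.X s, i, y)] ((P ++ [c]) ++ (l, d) :: (l, !d) :: Q) B q ↔
      (D.fr y = true ∧ P ++ (l, d) :: c :: (l, !d) :: Q = B ∧ q = ch D s c (l, d)) ∨
      (D.fr y = false ∧ c.1 = D.l y s c.2 ∧ l = D.l y (!s) d ∧
        P ++ (D.l y (!s) (!d), d) :: (D.l y s (!c.2), c.2) :: (l, !d) :: Q = B ∧ q = 0) := by
    intro l d
    rw [← mv, run_X hP]
    simp only [run_nil]
    constructor
    · rintro (⟨hf, r, ⟨hB, rfl⟩, hq⟩ | ⟨hf, h1, h2, hB, hq⟩)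
      · exact Or.inl ⟨hf, hB, by rw [hq, add_zero]⟩
      · exact Or.inr ⟨hf, h1, h2, hB, hq⟩
    · rintro (⟨hf, hB, hq⟩ | ⟨hf, h1, h2, hB, hq⟩)
      · exact Or.inl ⟨hf, 0, ⟨hB, rfl⟩, by rw [hq, add_zero]⟩
      · exact Or.inr ⟨hf, h1, h2, hB, hq⟩
  have e2 : ∀ (l : ℕ) (d : Bool), Run D [(.X (!s), i + 1, y)] (P ++ (l, d) :: (l, !d) :: c :: Q) B q ↔
      (D.fr y = true ∧ P ++ (l, d) :: c :: (l, !d) :: Q = B ∧ q = ch D (!s) (l, !d) c) ∨
      (D.fr y = false ∧ l = D.l y (!s) (!d) ∧ c.1 = D.l y s c.2 ∧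
        P ++ (l, d) :: (D.l y s (!c.2), c.2) :: (D.l y (!s) d, !d) :: Q = B ∧ q = 0) := by
    intro l d
    rw [mv, run_X (len1 hP)]
    simp only [run_nil, Bool.not_not, ← mv]
    constructor
    · rintro (⟨hf, r, ⟨hB, rfl⟩, hq⟩ | ⟨hf, h1, h2, hB, hq⟩)
      · exact Or.inl ⟨hf, hB, by rw [hq, add_zero]⟩
      · exact Or.inr ⟨hf, h1, h2, hB, hq⟩
    · rintro (⟨hf, hB, hq⟩ | ⟨hf, h1, h2, hB, hq⟩)
      · exact Or.inl ⟨hf, 0, ⟨hB, rfl⟩, by rw [hq, add_zero]⟩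
      · exact Or.inr ⟨hf, h1, h2, hB, hq⟩
  have hch : ∀ (l : ℕ) (d : Bool), ch D s c (l, d) = ch D (!s) (l, !d) c := by
    intro l d
    unfold ch
    cases s <;> cases d <;> cases c.2 <;> simp [sg]
  constructor
  · rintro ⟨l, d, h1⟩
    rcases (e1 l d).1 h1 with ⟨hf, hB, hq⟩ | ⟨hf, hc, hl, hB, hq⟩
    · refine ⟨l, d, ?_⟩
      exact (e2 l d).2 (Or.inl ⟨hf, hB, by rw [hq, hch]⟩)
    · refine ⟨D.l y (!s) (!d), d, ?_⟩
      refine (e2 _ d).2 (Or.inr ⟨hf, rfl, hc, ?_, hq⟩)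
      rw [← hB, hl]
  · rintro ⟨l, d, h1⟩
    rcases (e2 l d).1 h1 with ⟨hf, hB, hq⟩ | ⟨hf, hl, hc, hB, hq⟩
    · exact ⟨l, d, (e1 l d).2 (Or.inl ⟨hf, hB, by rw [hq, hch]⟩)⟩
    · refine ⟨D.l y (!s) d, d, (e1 _ d).2 (Or.inr ⟨hf, hc, rfl, ?_, hq⟩)⟩
      rw [← hB, hl]

theorem comm {D : Dat} {K K' : Kind} {i d x y : ℕ} {A B : List Lb} {q : ℤ}
    (h : i + K.i + d + K'.i ≤ A.length) :
    Run D [(K, i, x), (K', i + K.o + d, y)] A B q ↔
      Run D [(K', i + K.i + d, y), (K, i, x)] A B q := by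
  obtain ⟨P, A1, rfl, hP⟩ := split0 (by omega : i ≤ A.length)
  rw [List.length_append, hP] at h
  obtain ⟨S, A2, rfl, hS⟩ := split0 (by omega : K.i ≤ A1.length)
  rw [List.length_append, hS] at h
  obtain ⟨M, A3, rfl, hM⟩ := split0 (by omega : d ≤ A2.length)
  rw [List.length_append, hM] at h
  obtain ⟨S1, Q, rfl, hS1⟩ := split0 (by omega : K'.i ≤ A3.length)
  have e1 : P ++ (S ++ (M ++ (S1 ++ Q))) = P ++ S ++ (M ++ (S1 ++ Q)) := by simp
  have e2 : P ++ (S ++ (M ++ (S1 ++ Q))) = (P ++ S ++ M) ++ S1 ++ Q := by simp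
  have l1 : (P ++ S ++ M).length = i + K.i + d := by
    rw [List.length_append, List.length_append, hP, hS, hM]
  constructor
  · intro h1
    rw [e1, run_at hP hS] at h1
    obtain ⟨S', p, r, hp, h2, rfl⟩ := h1
    have l2 : (P ++ S' ++ M).length = i + K.o + d := by
      rw [List.length_append, List.length_append, hP, (pc_len hp).2, hM]
    have e3 : P ++ S' ++ (M ++ (S1 ++ Q)) = (P ++ S' ++ M) ++ S1 ++ Q := by simp
    rw [e3, run_at l2 hS1] at h2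
    obtain ⟨S1', p', r', hp', h3, rfl⟩ := h2
    rw [run_nil] at h3
    obtain ⟨rfl, rfl⟩ := h3
    rw [e2, run_at l1 hS1]
    refine ⟨S1', p', p, hp', ?_, by ring⟩
    have e4 : (P ++ S ++ M) ++ S1' ++ Q = P ++ S ++ (M ++ (S1' ++ Q)) := by simp
    rw [e4, run_at hP hS]
    exact ⟨S', p, 0, hp, run_nil.2 ⟨by simp, rfl⟩, by ring⟩
  · intro h1
    rw [e2, run_at l1 hS1] at h1
    obtain ⟨S1', p', r, hp', h2, rfl⟩ := h1
    have e4 : (P ++ S ++ M) ++ S1' ++ Q = P ++ S ++ (M ++ (S1' ++ Q)) := by simp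
    rw [e4, run_at hP hS] at h2
    obtain ⟨S', p, r', hp, h3, rfl⟩ := h2
    rw [run_nil] at h3
    obtain ⟨rfl, rfl⟩ := h3
    rw [e1, run_at hP hS]
    refine ⟨S', p, p', hp, ?_, by ring⟩
    have l2 : (P ++ S' ++ M).length = i + K.o + d := by
      rw [List.length_append, List.length_append, hP, (pc_len hp).2, hM]
    have e3 : P ++ S' ++ (M ++ (S1 ++ Q)) = (P ++ S' ++ M) ++ S1 ++ Q := by simp
    rw [e3, run_at l2 hS1]
    exact ⟨S1', p', 0, hp', run_nil.2 ⟨by simp, rfl⟩, by ring⟩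

theorem str2 {e f : Ev} {n : ℕ} (h : (str [e, f] n).isSome) :
    e.2 + e.1.i ≤ n ∧ f.2 + f.1.i ≤ n - e.1.i + e.1.o := by
  unfold str at h
  split_ifs at h with h1
  · unfold str at h
    split_ifs at h with h2
    · exact ⟨h1, h2⟩
    · simp at h
  · simp at h

theorem gIPL : IPL := by
  intro D L R A B q hLR hL hR
  cases hLR with
  | zig i x y =>
    obtain ⟨h1, h2⟩ := str2 hL
    exact zig (by simp only [Kind.i, Kind.o] at h1 h2; omega)
  | zag i x y =>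
    obtain ⟨h1, h2⟩ := str2 hL
    exact zag (by simp only [Kind.i, Kind.o] at h1 h2; omega)
  | pcap i s x y =>
    obtain ⟨h1, h2⟩ := str2 hL
    exact pcap (by simp only [Kind.i, Kind.o] at h1 h2; omega)
  | pcup i s x y =>
    obtain ⟨h1, h2⟩ := str2 hL
    exact pcup (by simp only [Kind.i, Kind.o] at h1 h2; omega)
  | comm K K' i d x y =>
    obtain ⟨h1, h2⟩ := str2 hL
    exact comm (by simp only at h1 h2; omega)

end Pool.Agent.Helper9.LK
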